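import Pool.Agent.H14R2.RC.Defs

set_option linter.unusedSectionVars false

namespace RC14
open scoped InnerProductSpace
open Finset

variable {G : Type*} [Group G] [Fintype G]
variable {V : Type*} [NormedAddCommGroup V] [InnerProductSpace ℂ V] [FiniteDimensional ℂ V]

namespace DECOMP

lemma inner_rho (ρ : G →* (V ≃ₗᵢ[ℂ] V)) (g : G) (w v : V) :
    ⟪w, ρ g v⟫_ℂ = ⟪ρ g⁻¹ w, v⟫_ℂ := by
  have h : ρ g (ρ g⁻¹ w) = w := by
    rw [map_inv]
    exact (ρ g).apply_symm_apply _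
  conv_lhs => rw [← h]
  exact (ρ g).inner_map_map _ _

lemma pyth {a b : V} (h : ⟪a, b⟫_ℂ = 0) : ‖a + b‖ ^ 2 = ‖a‖ ^ 2 + ‖b‖ ^ 2 := by
  have := norm_add_sq_eq_norm_sq_add_norm_sq_of_inner_eq_zero a b h
  nlinarith [this]

lemma exists_irr (ρ : G →* (V ≃ₗᵢ[ℂ] V)) (M : Submodule ℂ V) (hM : Inv ρ M) (h0 : M ≠ ⊥) :
    ∃ W : Submodule ℂ V, Irr ρ W ∧ W ≤ M := by
  obtain ⟨W, ⟨h1, h2, h3⟩, hmin⟩ := (wellFounded_lt (α := Submodule ℂ V)).has_min
    {U | U ≤ M ∧ Inv ρ U ∧ U ≠ ⊥} ⟨M, le_rfl, hM, h0⟩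
  refine ⟨W, ⟨h3, h2, fun U hU hU2 => ?_⟩, h1⟩
  by_contra hne
  push Not at hne
  exact hmin U ⟨hU.trans h1, hU2, hne.1⟩ (lt_of_le_of_ne hU hne.2)

lemma main (ρ : G →* (V ≃ₗᵢ[ℂ] V)) (d : ℕ) : ∀ (M : Submodule ℂ V), Inv ρ M →
    Module.finrank ℂ M ≤ d →
    ∃ (N : ℕ) (W : Fin N → Submodule ℂ V), N ≤ Module.finrank ℂ M ∧
      (∀ i, Irr ρ (W i) ∧ W i ≤ M) ∧
      ∀ (r : ℕ) (x : Fin r → G) (w : Fin r → ℝ) (c : ℝ), (∀ i, 0 ≤ w i) →
        (∀ i, ∀ v ∈ W i, c * ‖v‖ ^ 2 ≤ ∑ t, w t * ‖ρ (x t) v - v‖ ^ 2) →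
        ∀ v ∈ M, c * ‖v‖ ^ 2 ≤ ∑ t, w t * ‖ρ (x t) v - v‖ ^ 2 := by
  induction d with
  | zero =>
    intro M hM hd
    have hM0 : M = ⊥ := by
      apply Submodule.finrank_eq_zero.mp
      omega
    refine ⟨0, Fin.elim0, Nat.zero_le _, fun i => i.elim0, ?_⟩
    intro r x w c hw _ v hv
    rw [hM0, Submodule.mem_bot] at hv
    subst hv
    simp
  | succ d ih =>
    intro M hM hd
    by_cases h0 : M = ⊥
    · refine ⟨0, Fin.elim0, Nat.zero_le _, fun i => i.elim0, ?_⟩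
      intro r x w c hw _ v hv
      rw [h0, Submodule.mem_bot] at hv
      subst hv
      simp
    obtain ⟨W0, hirr, hle⟩ := exists_irr ρ M hM h0
    set M' : Submodule ℂ V := M ⊓ W0ᗮ with hM'
    have hinvO : ∀ g : G, ∀ v ∈ W0ᗮ, ρ g v ∈ W0ᗮ := by
      intro g v hv
      rw [Submodule.mem_orthogonal] at hv ⊢
      intro u hu
      rw [inner_rho]
      exact hv _ (hirr.2.1 _ _ hu)
    have hinv' : Inv ρ M' := by
      intro g v hv
      exact ⟨hM g v hv.1, hinvO g v hv.2⟩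
    have hlt : M' < M := by
      refine lt_of_le_of_ne inf_le_left ?_
      intro heq
      have h1 : W0 ≤ W0ᗮ := by
        calc W0 ≤ M := hle
          _ = M' := heq.symm
          _ ≤ W0ᗮ := inf_le_right
      apply hirr.1
      rw [Submodule.eq_bot_iff]
      intro v hv
      have := (Submodule.mem_orthogonal _ _).mp (h1 hv) v hv
      exact inner_self_eq_zero.mp this
    have hfr : Module.finrank ℂ M' < Module.finrank ℂ M := Submodule.finrank_lt_finrank_of_lt hlt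
    obtain ⟨N, W, hN, hW, hmain⟩ := ih M' hinv' (by omega)
    refine ⟨N + 1, Fin.cons W0 W, by omega, ?_, ?_⟩
    · intro i
      refine Fin.cases ?_ (fun j => ?_) i
      · simpa using ⟨hirr, hle⟩
      · simpa using ⟨(hW j).1, (hW j).2.trans hlt.le⟩
    · intro r x w c hw hc v hv
      have hc0 : ∀ v ∈ W0, c * ‖v‖ ^ 2 ≤ ∑ t, w t * ‖ρ (x t) v - v‖ ^ 2 := by
        have := hc 0
        simpa using this
      have hcs : ∀ i, ∀ v ∈ W i, c * ‖v‖ ^ 2 ≤ ∑ t, w t * ‖ρ (x t) v - v‖ ^ 2 := by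
        intro i
        have := hc i.succ
        simpa using this
      have hM2 := hmain r x w c hw hcs
      obtain ⟨a, ha, b, hb, hab⟩ := Submodule.exists_add_mem_mem_orthogonal (K := W0) v
      have hbM : b ∈ M' := by
        refine ⟨?_, hb⟩
        have : b = v - a := by rw [hab]; abel
        rw [this]
        exact M.sub_mem hv (hle ha)
      have e1 : ‖v‖ ^ 2 = ‖a‖ ^ 2 + ‖b‖ ^ 2 := by
        rw [hab]
        exact pyth ((Submodule.mem_orthogonal _ _).mp hb a ha)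
      have e2 : ∀ t, ‖ρ (x t) v - v‖ ^ 2 = ‖ρ (x t) a - a‖ ^ 2 + ‖ρ (x t) b - b‖ ^ 2 := by
        intro t
        have : ρ (x t) v - v = (ρ (x t) a - a) + (ρ (x t) b - b) := by
          rw [hab, map_add]; abel
        rw [this]
        apply pyth
        refine (Submodule.mem_orthogonal _ _).mp (Submodule.sub_mem _ (hinvO _ _ hb) hb) _
          (Submodule.sub_mem _ (hirr.2.1 _ _ ha) ha)
      have h1 := hc0 a ha
      have h2 := hM2 b hbM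
      calc c * ‖v‖ ^ 2 = c * ‖a‖ ^ 2 + c * ‖b‖ ^ 2 := by rw [e1]; ring
        _ ≤ _ := add_le_add h1 h2
        _ = ∑ t, w t * ‖ρ (x t) v - v‖ ^ 2 := by
          rw [← Finset.sum_add_distrib]
          refine Finset.sum_congr rfl fun t _ => ?_
          rw [e2 t]; ring

end DECOMP

/-- decomposition into irreducibles, in the form in which it is used -/
theorem DECOMP (ρ : G →* (V ≃ₗᵢ[ℂ] V)) (M : Submodule ℂ V) (hM : Inv ρ M) :
    ∃ (N : ℕ) (W : Fin N → Submodule ℂ V), N ≤ Module.finrank ℂ M ∧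
      (∀ i, Irr ρ (W i) ∧ W i ≤ M) ∧
      ∀ (r : ℕ) (x : Fin r → G) (w : Fin r → ℝ) (c : ℝ), (∀ i, 0 ≤ w i) →
        (∀ i, ∀ v ∈ W i, c * ‖v‖ ^ 2 ≤ ∑ t, w t * ‖ρ (x t) v - v‖ ^ 2) →
        ∀ v ∈ M, c * ‖v‖ ^ 2 ≤ ∑ t, w t * ‖ρ (x t) v - v‖ ^ 2 :=
  DECOMP.main ρ _ M hM le_rfl

end RC14
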